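import Pool.Agent.Helper36.EV.Goals

/-!
# Evolution equations in a graded space: solutions of the regularized equations with a priori bounds
-/

namespace Pool.Agent.Helper8.EV

open Set Filter Topology Pool.Agent.Helper36.EV

variable {X H : Type} [AddCommGroup X] [Module ℝ X] [NormedAddCommGroup H] [NormedSpace ℝ H]

theorem continuous_q (S : Scale X H) (n m : ℕ) (u : X) : Continuous fun h : H => S.q m (u + S.J n h) := by
  obtain ⟨b, hb⟩ := S.exists_bil n m
  obtain ⟨l, hl⟩ := S.exists_lin n m u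
  have h1 : (fun h : H => S.q m (u + S.J n h)) = fun h => S.q m u + 2 * l h + b h h := by
    funext h
    rw [S.q_add, hl, hb, Scale.q, Scale.q]
  rw [h1]
  exact (continuous_const.add (continuous_const.mul l.continuous)).add (b.continuous.clm_apply continuous_id)

theorem continuous_q' (S : Scale X H) (n m : ℕ) : Continuous fun h : H => S.q m (S.J n h) := by
  have h1 := continuous_q S n m 0
  simpa using h1

theorem adm_of {S : Scale X H} (E : Evo S) {n : ℕ} {r1 : ℝ}
    (hn : Real.sqrt r1 + |S.ε n| * S.nrm (E.m0 + 1) E.u0 ≤ Real.sqrt E.r) {y : X} (hy : S.q E.s y ≤ E.R)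
    (hy' : S.q E.m0 (y - E.u0) ≤ r1) : E.Adm (S.J n (S.ι y)) := by
  refine ⟨(S.conJ n E.s y).trans hy, ?_⟩
  have h1 : S.nrm E.m0 (S.J n (S.ι y) - E.u0) ≤ Real.sqrt E.r := by
    have h2 := S.nrm_tri E.m0 (S.J n (S.ι y)) (S.J n (S.ι E.u0)) E.u0
    have h3 : S.J n (S.ι y) - S.J n (S.ι E.u0) = S.J n (S.ι (y - E.u0)) := by
      rw [map_sub, map_sub]
    rw [h3] at h2
    have h4 := S.nrm_J_le n E.m0 (y - E.u0)
    have h5 : S.nrm E.m0 (y - E.u0) ≤ Real.sqrt r1 := Real.sqrt_le_sqrt hy'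
    have h6 := S.nrm_err n E.m0 E.u0
    linarith
  have h7 := S.q_le_of_nrm_le h1
  rwa [Real.sq_sqrt E.hr.le] at h7

theorem gal : G_GAL := by
  intro gw reg X H _ _ _ _ _ S E
  have hT : 0 ≤ E.T := E.hτ.le.trans E.hτT
  have hτ0 := E.hτ.le
  have hq0 : 0 ≤ 1 + S.q E.s E.u0 := by
    have := S.q_nonneg E.s E.u0
    linarith
  have hsR : S.q E.s E.u0 < E.R := by
    have h1 : 1 ≤ Real.exp (2 * E.C1 * E.τ) := by
      apply Real.one_le_exp
      have := E.hC1
      positivity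
    have h2 := E.small
    nlinarith
  have hC2 : 0 ≤ E.C2 := by
    have h1 := E.F5 0 ⟨le_rfl, hT⟩ E.u0 hsR.le (by rw [sub_self, S.q_zero]; exact E.hr.le)
    exact (S.q_nonneg _ _).trans h1
  obtain ⟨r1, hr1, hr1'⟩ := exists_between E.small'
  have hr10 : 0 < r1 := lt_of_le_of_lt (by positivity) hr1
  have hev : ∀ᶠ n in atTop, Real.sqrt r1 + |S.ε n| * S.nrm (E.m0 + 1) E.u0 ≤ Real.sqrt E.r := by
    have h1 : Tendsto (fun n => Real.sqrt r1 + |S.ε n| * S.nrm (E.m0 + 1) E.u0) atTop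
        (𝓝 (Real.sqrt r1 + |0| * S.nrm (E.m0 + 1) E.u0)) :=
      (S.hε.abs.mul_const _).const_add _
    have h2 : Real.sqrt r1 + |0| * S.nrm (E.m0 + 1) E.u0 < Real.sqrt E.r := by
      rw [abs_zero, zero_mul, add_zero]
      exact Real.sqrt_lt_sqrt hr10.le hr1'
    filter_upwards [h1.eventually (gt_mem_nhds h2)] with n hn
    exact hn.le
  obtain ⟨n0, hn0⟩ := eventually_atTop.mp hev
  refine ⟨n0, fun n hn => ?_⟩
  have hadm : ∀ h : H, S.q E.s (E.u0 + S.J n h) ≤ E.R → S.q E.m0 (S.J n h) ≤ r1 →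
      E.Adm (S.J n (S.ι (E.u0 + S.J n h))) := by
    intro h h1 h2
    exact adm_of E (hn0 n hn) h1 (by rwa [add_sub_cancel_left])
  obtain ⟨Cι, hCι0, hCι⟩ := S.bι'
  have hK0 : 0 ≤ Cι * Real.sqrt E.C2 := mul_nonneg hCι0 (Real.sqrt_nonneg _)
  have hnrmF : ∀ t ∈ Icc 0 E.T, ∀ x, E.Adm x → S.nrm E.m0 (E.F t x) ≤ Real.sqrt E.C2 := by
    intro t ht x hx
    exact Real.sqrt_le_sqrt (E.F5 t ht x hx.1 hx.2)
  obtain ⟨hreg1, hreg2⟩ := reg X H S E n
  have hsub : Icc 0 E.τ ⊆ Icc 0 E.T := Icc_subset_Icc le_rfl E.hτT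
  obtain ⟨h, hh0, hh⟩ := gw.2 H (fun t h => S.ι (E.F t (S.J n (S.ι (E.u0 + S.J n h))))) E.τ
    (Cι * Real.sqrt E.C2 * E.τ + 1)
    {h | ‖h‖ ≤ Cι * Real.sqrt E.C2 * E.τ + 1 ∧ S.q E.s (E.u0 + S.J n h) ≤ E.R ∧ S.q E.m0 (S.J n h) ≤ r1}
    {h | ‖h‖ < Cι * Real.sqrt E.C2 * E.τ + 1 ∧ S.q E.s (E.u0 + S.J n h) < E.R ∧ S.q E.m0 (S.J n h) < r1}
    E.hτ (hreg1.mono (prod_mono hsub subset_rfl))
    (by
      intro a
      obtain ⟨L, hL⟩ := hreg2 a
      exact ⟨L, fun t ht => hL t (hsub ht)⟩)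
    (by
      refine (isClosed_le continuous_norm continuous_const).inter
        ((isClosed_le (continuous_q S n E.s E.u0) continuous_const).inter
          (isClosed_le (continuous_q' S n E.m0) continuous_const)))
    (by
      refine (isOpen_lt continuous_norm continuous_const).inter
        ((isOpen_lt (continuous_q S n E.s E.u0) continuous_const).inter
          (isOpen_lt (continuous_q' S n E.m0) continuous_const)))
    (fun h hh => ⟨hh.1.le, hh.2.1.le, hh.2.2.le⟩)
    (by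
      intro h hh
      rw [mem_closedBall_zero_iff]
      exact hh.1)
    (by
      refine ⟨?_, ?_, ?_⟩
      · rw [norm_zero]
        have : 0 ≤ Cι * Real.sqrt E.C2 * E.τ := mul_nonneg hK0 hτ0
        linarith
      · rw [map_zero, add_zero]
        exact hsR
      · rw [map_zero, S.q_zero]
        exact hr10)
    (by
      intro t1 ht1 h h0 hh
      have ht1' : t1 ∈ Icc 0 t1 := ⟨ht1.1, le_rfl⟩
      have hIT : ∀ t ∈ Icc 0 t1, t ∈ Icc 0 E.T := fun t ht => ⟨ht.1, (ht.2.trans ht1.2).trans E.hτT⟩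
      have hA : ∀ t ∈ Icc 0 t1, E.Adm (S.J n (S.ι (E.u0 + S.J n (h t)))) :=
        fun t ht => hadm _ (hh t ht).1.2.1 (hh t ht).1.2.2
      have hN : ∀ t ∈ Icc 0 t1,
          S.nrm E.m0 (E.F t (S.J n (S.ι (E.u0 + S.J n (h t))))) ≤ Real.sqrt E.C2 :=
        fun t ht => hnrmF t (hIT t ht) _ (hA t ht)
      refine ⟨?_, ?_, ?_⟩
      · -- norm of h
        have h1 := Convex.norm_image_sub_le_of_norm_hasDerivWithin_le
          (f := h) (f' := fun t => S.ι (E.F t (S.J n (S.ι (E.u0 + S.J n (h t)))))) (s := Icc 0 t1)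
          (C := Cι * Real.sqrt E.C2) (x := 0) (y := t1) (fun t ht => (hh t ht).2)
          (fun t ht => (hCι _).trans (mul_le_mul_of_nonneg_left
            ((S.nrm_mono (Nat.zero_le _) _).trans (hN t ht)) hCι0))
          (convex_Icc _ _) ⟨le_rfl, ht1.1⟩ ht1'
        rw [h0, sub_zero, sub_zero, Real.norm_of_nonneg ht1.1] at h1
        have h2 : Cι * Real.sqrt E.C2 * t1 ≤ Cι * Real.sqrt E.C2 * E.τ :=
          mul_le_mul_of_nonneg_left ht1.2 hK0
        exact lt_of_le_of_lt (h1.trans h2) (by linarith)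
      · -- energy of order s
        have h1 := gw.1 (fun t => 1 + S.q E.s (E.u0 + S.J n (h t)))
          (fun t => 2 * S.B E.s (E.u0 + S.J n (h t))
            (S.J n (S.ι (E.F t (S.J n (S.ι (E.u0 + S.J n (h t))))))))
          (2 * E.C1) 0 t1 (by have := E.hC1; positivity) le_rfl
          (by
            intro t ht
            refine ⟨(S.hasDeriv_q n E.s E.u0 (hh t ht).2).const_add 1, ?_⟩
            have h2 : S.B E.s (E.u0 + S.J n (h t))
                (S.J n (S.ι (E.F t (S.J n (S.ι (E.u0 + S.J n (h t))))))) =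
                S.B E.s (S.J n (S.ι (E.u0 + S.J n (h t))))
                  (E.F t (S.J n (S.ι (E.u0 + S.J n (h t))))) :=
              (S.symJ n E.s _ _).symm
            have h3 := E.F3s t (hIT t ht) _ (hA t ht).1 (hA t ht).2
            have h4 := S.conJ n E.s (E.u0 + S.J n (h t))
            have h5 : E.C1 * (1 + S.q E.s (S.J n (S.ι (E.u0 + S.J n (h t))))) ≤
                E.C1 * (1 + S.q E.s (E.u0 + S.J n (h t))) := by
              apply mul_le_mul_of_nonneg_left _ E.hC1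
              unfold Scale.q
              linarith
            show 2 * S.B E.s (E.u0 + S.J n (h t)) _ ≤
              2 * E.C1 * (1 + S.q E.s (E.u0 + S.J n (h t))) + 0
            rw [h2]
            linarith)
          t1 ht1'
        simp only [h0, map_zero, add_zero, zero_mul] at h1
        have h6 : Real.exp (2 * E.C1 * t1) ≤ Real.exp (2 * E.C1 * E.τ) := by
          apply Real.exp_le_exp.mpr
          have := E.hC1
          exact mul_le_mul_of_nonneg_left ht1.2 (by positivity)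
        have h7 : Real.exp (2 * E.C1 * t1) * (1 + S.q E.s E.u0) ≤
            Real.exp (2 * E.C1 * E.τ) * (1 + S.q E.s E.u0) := mul_le_mul_of_nonneg_right h6 hq0
        have h8 := E.small
        have h9 : 1 + S.q E.s (E.u0 + S.J n (h t1)) < 1 + E.R := lt_of_le_of_lt (h1.trans h7) h8
        linarith
      · -- distance of order m0
        have h1 := gw.1 (fun t => S.B E.m0 (S.J n (h t1)) (0 + S.J n (h t)))
          (fun t => S.B E.m0 (S.J n (h t1)) (S.J n (S.ι (E.F t (S.J n (S.ι (E.u0 + S.J n (h t))))))))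
          0 (S.nrm E.m0 (S.J n (h t1)) * Real.sqrt E.C2) t1 le_rfl
          (mul_nonneg (S.nrm_nonneg _ _) (Real.sqrt_nonneg _))
          (by
            intro t ht
            refine ⟨S.hasDeriv_lin n E.m0 _ 0 (hh t ht).2, ?_⟩
            rw [zero_mul, zero_add]
            refine (S.B_le _ _ _).trans (mul_le_mul_of_nonneg_left ?_ (S.nrm_nonneg _ _))
            exact (S.nrm_J_le _ _ _).trans (hN t ht))
          t1 ht1'
        simp only [h0, map_zero, zero_mul, zero_add, Real.exp_zero, one_mul] at h1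
        have h2 : S.nrm E.m0 (S.J n (h t1)) ^ 2 ≤ S.nrm E.m0 (S.J n (h t1)) * Real.sqrt E.C2 * t1 := by
          rw [S.nrm_sq]
          exact h1
        have h3 : S.nrm E.m0 (S.J n (h t1)) ≤ Real.sqrt E.C2 * t1 := by
          rcases (S.nrm_nonneg E.m0 (S.J n (h t1))).eq_or_lt with h4 | h4
          · rw [← h4]
            exact mul_nonneg (Real.sqrt_nonneg _) ht1.1
          · have h5 : S.nrm E.m0 (S.J n (h t1)) * S.nrm E.m0 (S.J n (h t1)) ≤
                S.nrm E.m0 (S.J n (h t1)) * (Real.sqrt E.C2 * t1) := by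
              calc S.nrm E.m0 (S.J n (h t1)) * S.nrm E.m0 (S.J n (h t1))
                  = S.nrm E.m0 (S.J n (h t1)) ^ 2 := by ring
                _ ≤ S.nrm E.m0 (S.J n (h t1)) * Real.sqrt E.C2 * t1 := h2
                _ = _ := by ring
            exact le_of_mul_le_mul_left h5 h4
        have h6 := S.q_le_of_nrm_le h3
        rw [mul_pow, Real.sq_sqrt hC2] at h6
        have h7 : t1 ^ 2 ≤ E.τ ^ 2 := pow_le_pow_left₀ ht1.1 ht1.2 2
        have h8 : E.C2 * t1 ^ 2 ≤ E.C2 * E.τ ^ 2 := mul_le_mul_of_nonneg_left h7 hC2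
        exact lt_of_le_of_lt (h6.trans h8) hr1)
  refine ⟨h, ⟨hh0, fun t ht => (hh t ht).2, fun t ht => ⟨(hh t ht).1.2.1, ?_⟩,
    fun t ht => hadm _ (hh t ht).1.2.1 (hh t ht).1.2.2⟩⟩
  show S.q E.m0 (E.u0 + S.J n (h t) - E.u0) ≤ E.r
  rw [add_sub_cancel_left]
  exact (hh t ht).1.2.2.trans hr1'.le

end Pool.Agent.Helper8.EV
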