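import Pool.Agent.Helper43.EV.Goals

/-!
# Project EV (MP_d4e2f9_lc), packet PRD: products of forced sets
-/

set_option autoImplicit false

open Set

namespace Pool.Agent.Helper8.EV.PRD

open Pool.Agent.Helper43.EV

section lemmas

variable {G₁ G₂ V₁ V₂ : Type} [Group G₁] [Group G₂] [MulAction G₁ V₁] [MulAction G₂ V₂]

theorem smul_eq (g : G₁ × G₂) (v : V₁ × V₂) : g • v = (g.1 • v.1, g.2 • v.2) := rfl

theorem orbit_card [Finite V₁] [Finite V₂] (H₁ : Subgroup G₁) (H₂ : Subgroup G₂) (v : V₁ × V₂) :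
    (MulAction.orbit H₁ v.1).ncard * (MulAction.orbit H₂ v.2).ncard ≤
      (MulAction.orbit (H₁.prod H₂) v).ncard := by
  rw [← Set.ncard_prod]
  refine Set.ncard_le_ncard ?_ (Set.toFinite _)
  rintro ⟨x, y⟩ ⟨hx, hy⟩
  obtain ⟨g, hg⟩ := hx
  obtain ⟨g', hg'⟩ := hy
  refine ⟨⟨((g : G₁), (g' : G₂)), Subgroup.mem_prod.2 ⟨g.2, g'.2⟩⟩, ?_⟩
  exact Prod.ext hg hg'

theorem claim [Finite V₁] [Finite V₂] {K₁ K₂ K : Cls}
    (hK : ∀ (G₁ G₂ : Type) [Group G₁] [Group G₂] (H₁ : Subgroup G₁)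
      (H₂ : Subgroup G₂), K₁ G₁ H₁ → K₂ G₂ H₂ → K (G₁ × G₂) (H₁.prod H₂)) {h₁ h₂ : ℕ}
    (H₂ : Subgroup G₂) (hH₂ : K₂ G₂ H₂) (A : Set (V₁ × V₂))
    (hA : Fz K (G₁ × G₂) (V₁ × V₂) (h₁ * h₂) A)
    (inv1 : ∀ g : G₁, ∀ v ∈ A, ((g • v.1, v.2) : V₁ × V₂) ∈ A)
    (inv2 : ∀ g ∈ H₂, ∀ v ∈ A, ((v.1, g • v.2) : V₁ × V₂) ∈ A)
    {A₁ : Set V₁} (h : Fz K₁ G₁ V₁ h₁ A₁) :
    Fz K (G₁ × G₂) (V₁ × V₂) (h₁ * h₂)
      (A ∪ {v | v.1 ∈ A₁ ∧ h₂ ≤ (MulAction.orbit H₂ v.2).ncard}) := by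
  induction h with
  | empty =>
    refine Fz.sub ?_ hA
    rintro v (hv | hv)
    · exact hv
    · exact absurd hv.1 (Set.notMem_empty _)
  | sub hAB _ ih =>
    refine Fz.sub ?_ ih
    rintro v (hv | hv)
    · exact Or.inl hv
    · exact Or.inr ⟨hAB hv.1, hv.2⟩
  | tr g _ ih =>
    refine Fz.sub ?_ (Fz.tr ((g, 1) : G₁ × G₂) ih)
    rintro v (hv | hv)
    · refine ⟨(g⁻¹ • v.1, v.2), Or.inl (inv1 g⁻¹ v hv), ?_⟩
      simp only [smul_eq, smul_inv_smul, one_smul]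
    · obtain ⟨⟨w, hw, hwv⟩, h2⟩ := hv
      refine ⟨(w, v.2), Or.inr ⟨hw, h2⟩, ?_⟩
      simp only [smul_eq, one_smul]
      exact Prod.ext hwv rfl
  | ext H₁ hH₁ hinv _ ih =>
    refine Fz.sub ?_ (Fz.ext (H₁.prod H₂) (hK G₁ G₂ H₁ H₂ hH₁ hH₂) ?_ ih)
    · rintro v (hv | hv)
      · exact Or.inl (Or.inl hv)
      · rcases hv.1 with h1 | h1
        · exact Or.inl (Or.inr ⟨h1, hv.2⟩)
        · refine Or.inr ?_
          have h1' : h₁ ≤ (MulAction.orbit H₁ v.1).ncard := h1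
          exact le_trans (Nat.mul_le_mul h1' hv.2) (orbit_card H₁ H₂ v)
    · intro g hg v hv
      have hg' := Subgroup.mem_prod.1 hg
      rcases hv with hv | hv
      · refine Or.inl ?_
        have h1 := inv1 g.1 v hv
        exact inv2 g.2 hg'.2 _ h1
      · refine Or.inr ⟨hinv g.1 hg'.1 v.1 hv.1, ?_⟩
        have h2 : MulAction.orbit H₂ (g.2 • v.2) = MulAction.orbit H₂ v.2 :=
          MulAction.orbit_smul (⟨g.2, hg'.2⟩ : H₂) v.2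
        show h₂ ≤ (MulAction.orbit H₂ (g.2 • v.2)).ncard
        rw [h2]
        exact hv.2

end lemmas

theorem t : Pool.Agent.Helper43.EV.PRD := by
  intro K₁ K₂ K hK G₁ G₂ V₁ V₂ _ _ _ _ _ _ h₁ h₂ F₁ F₂
  have key : ∀ A₂ : Set V₂, Fz K₂ G₂ V₂ h₂ A₂ →
      Fz K (G₁ × G₂) (V₁ × V₂) (h₁ * h₂) {v | v.2 ∈ A₂} := by
    intro A₂ h
    induction h with
    | empty => exact Fz.sub (fun v hv => absurd hv (Set.notMem_empty _)) Fz.empty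
    | sub hAB _ ih => exact Fz.sub (fun v hv => hAB hv) ih
    | tr g _ ih =>
      refine Fz.sub ?_ (Fz.tr ((1, g) : G₁ × G₂) ih)
      rintro v ⟨w, hw, hwv⟩
      refine ⟨(v.1, w), hw, ?_⟩
      simp only [smul_eq, one_smul]
      exact Prod.ext rfl hwv
    | @ext H₂ A hH₂ hinv _ ih =>
      refine Fz.sub ?_ (claim hK H₂ hH₂ {v | v.2 ∈ A} ih (fun g v hv => hv)
        (fun g hg v hv => hinv g hg v.2 hv) F₁)
      rintro v (hv | hv)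
      · exact Or.inl hv
      · exact Or.inr ⟨Set.mem_univ _, hv⟩
  exact Fz.sub (fun v _ => Set.mem_univ _) (key Set.univ F₂)

end Pool.Agent.Helper8.EV.PRD
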